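import Pool.Agent.H73.FM.KCB
import Pool.Agent.H61.FM.Targets

/-! Fourth moment of class group `L`-functions, row KRB: bounds for the kernel. -/

set_option autoImplicit false

open MeasureTheory Set Filter
open scoped Real

namespace Pool.Agent.H73.FM

open Pool.Agent.H31.CN Pool.Agent.H89.FM Pool.Agent.H61.FM

/-- the norm of the power of the unit -/
theorem unit_cpow (t θ : ℝ) (w : ℂ) (hθ : θ = tht t ∨ θ = -tht t) (hwi : θ * w.im = tht t * t) :
    ‖(Complex.exp ((θ : ℂ) * Complex.I)) ^ w‖ ≤ 3 * Real.exp (-(π * |t| / 2)) := by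
  have habs := tht_abs t
  have hθa : |θ| < π / 2 := by
    rcases hθ with rfl | rfl
    · exact habs
    · rw [abs_neg]; exact habs
  have hpi := Real.pi_pos
  have harg : (Complex.exp ((θ : ℂ) * Complex.I)).arg = θ := by
    have h1 : Complex.exp ((θ : ℂ) * Complex.I) =
        Complex.cos θ + Complex.sin θ * Complex.I := Complex.exp_mul_I _
    rw [h1]
    refine Complex.arg_cos_add_sin_mul_I ⟨?_, ?_⟩
    · have := (abs_lt.1 hθa).1; linarith
    · have := (abs_lt.1 hθa).2; linarith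
  rw [Complex.norm_cpow_of_ne_zero (Complex.exp_ne_zero _), harg, hwi,
    Complex.norm_exp_ofReal_mul_I, Real.one_rpow, one_div, ← Real.exp_neg]
  have h3 := tht_mul t
  calc Real.exp (-(tht t * t)) ≤ Real.exp (1 + -(π * |t| / 2)) :=
        Real.exp_le_exp.2 (by linarith)
    _ = Real.exp 1 * Real.exp (-(π * |t| / 2)) := Real.exp_add _ _
    _ ≤ 3 * Real.exp (-(π * |t| / 2)) := by
        refine mul_le_mul_of_nonneg_right ?_ (Real.exp_pos _).le
        have := Real.exp_one_lt_d9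
        linarith

/-- the derivative of the kernel -/
noncomputable def Dk (τ s : ℂ) (r : ℝ) : ℂ :=
  -(s * kf τ s r + phc (τ * r) * τ ^ s) / r +
    -((1 - s) * kf τ⁻¹ (1 - s) r + phc (τ⁻¹ * r) * τ⁻¹ ^ (1 - s)) / r

theorem dk_le (s z p : ℂ) (k f q e r σ T1 : ℝ) (kf' : ℂ) (hr : 0 < r) (hT1 : 1 ≤ T1)
    (hs : ‖s‖ ≤ T1) (hk : 0 ≤ k) (he : 0 ≤ e)
    (h1 : ‖kf'‖ ≤ k * ‖p‖ * r ^ σ * e) (h2 : ‖z‖ ≤ k * r ^ σ * e) (h3 : ‖p‖ ≤ 3 * q)
    (hkf : k = f) :
    ‖-(s * kf' + z * p) / r‖ ≤ 6 * f * T1 * q * r ^ (σ - 1) * e := by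
  subst hkf
  have hp := norm_nonneg p
  have hrp : 0 < r ^ σ := Real.rpow_pos_of_pos hr _
  rw [norm_div, norm_neg, Complex.norm_real, Real.norm_of_nonneg hr.le,
    Real.rpow_sub_one hr.ne']
  have h4 : ‖s * kf' + z * p‖ ≤ 6 * k * T1 * q * r ^ σ * e := by
    calc ‖s * kf' + z * p‖ ≤ ‖s * kf'‖ + ‖z * p‖ := norm_add_le _ _
      _ = ‖s‖ * ‖kf'‖ + ‖z‖ * ‖p‖ := by rw [norm_mul, norm_mul]
      _ ≤ T1 * (k * ‖p‖ * r ^ σ * e) + (k * r ^ σ * e) * ‖p‖ :=
          add_le_add (mul_le_mul hs h1 (norm_nonneg _) (by linarith))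
            (mul_le_mul_of_nonneg_right h2 hp)
      _ = (k * r ^ σ * e) * ((T1 + 1) * ‖p‖) := by ring
      _ ≤ (k * r ^ σ * e) * ((2 * T1) * (3 * q)) := by
          refine mul_le_mul_of_nonneg_left ?_ (by positivity)
          exact mul_le_mul (by linarith) h3 hp (by linarith)
      _ = _ := by ring
  calc ‖s * kf' + z * p‖ / r ≤ (6 * k * T1 * q * r ^ σ * e) / r :=
        div_le_div_of_nonneg_right h4 hr.le
    _ = _ := by ring

theorem pf_KRB (hKR1 : T_KR1) : T_KRB := by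
  obtain ⟨C, k, hC, hK⟩ := hKR1
  refine ⟨6 * (C * (4 / 3) ^ k), k + 1, 3 / 4, by positivity, by norm_num, ?_⟩
  intro s hs
  have hT := one_le_T s.im
  have hs' := abs_le.1 hs
  set τ : ℂ := tu s.im with hτ
  have e1 : τ = Complex.exp ((tht s.im : ℂ) * Complex.I) := tu_eq s.im
  have e2 : τ⁻¹ = Complex.exp (((-tht s.im : ℝ) : ℂ) * Complex.I) := tu_inv s.im
  have hn1 : ‖τ‖ = 1 := by rw [e1, Complex.norm_exp_ofReal_mul_I]
  have hn2 : ‖τ⁻¹‖ = 1 := by rw [norm_inv, hn1, inv_one]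
  have hr1 : τ.re = Real.cos (tht s.im) := by rw [e1, Complex.exp_ofReal_mul_I_re]
  have hr2 : τ⁻¹.re = Real.cos (tht s.im) := by
    rw [e2, Complex.exp_ofReal_mul_I_re, Real.cos_neg]
  have hcos := cos_tht s.im
  have hcos0 : 0 < Real.cos (tht s.im) := lt_of_lt_of_le (by positivity) hcos
  set T : ℝ := 4 / 3 * (1 + |s.im|) with hTd
  have hT1 : 1 ≤ T := by rw [hTd]; linarith
  have hTc : 1 ≤ T * Real.cos (tht s.im) := by
    have h1 : T * (3 / 4 / (1 + |s.im|)) = 1 := by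
      rw [hTd]; field_simp
    rw [← h1]
    exact mul_le_mul_of_nonneg_left hcos (by linarith)
  have hs2 : |(1 - s).re - 1 / 2| ≤ 1 / 8 := by
    rw [Complex.sub_re, Complex.one_re, abs_le]
    constructor <;> linarith [hs'.1, hs'.2]
  have hre2 : -(1 - s).re = s.re - 1 := by
    rw [Complex.sub_re, Complex.one_re]; ring
  have hA := hK τ s T hn1 hT1 (by rw [hr1]; exact hTc) hs
  have hB := hK τ⁻¹ (1 - s) T hn2 hT1 (by rw [hr2]; exact hTc) hs2
  rw [hre2] at hB
  have hp1 : ‖τ ^ s‖ ≤ 3 * Real.exp (-(π * |s.im| / 2)) := by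
    rw [e1]
    exact unit_cpow s.im (tht s.im) s (Or.inl rfl) rfl
  have hp2 : ‖τ⁻¹ ^ (1 - s)‖ ≤ 3 * Real.exp (-(π * |s.im| / 2)) := by
    rw [e2]
    refine unit_cpow s.im (-tht s.im) (1 - s) (Or.inr rfl) ?_
    rw [Complex.sub_im, Complex.one_im]; ring
  have hsum : ∀ r : ℝ, 0 < r → Kk τ s r = kf τ s r + kf τ⁻¹ (1 - s) r := by
    intro r hr
    unfold Kk kf
    rw [← integral_add (hA r hr).1 (hB r hr).1]
    refine integral_congr_ae (Eventually.of_forall fun u => ?_)
    simp only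
    rw [add_div]
  have hder : ∀ r : ℝ, 0 < r → HasDerivAt (Kk τ s) (Dk τ s r) r := by
    intro r hr
    have h1 := (hA r hr).2.2.1.add (hB r hr).2.2.1
    refine h1.congr_of_eventuallyEq ?_
    filter_upwards [lt_mem_nhds hr] with r' hr'
    exact hsum r' hr'
  have hexp : ∀ r : ℝ, Real.exp (-(r / T)) = Real.exp (-(3 / 4 * r / (1 + |s.im|))) := by
    intro r
    congr 2
    rw [hTd]
    field_simp
  have hTk : C * T ^ k = C * (4 / 3) ^ k * (1 + |s.im|) ^ k := by
    rw [hTd, mul_pow]; ring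
  refine ⟨τ, hn1, by rw [hr1]; exact hcos0, ?_, ?_⟩
  · have h1 : ContinuousOn (Dk τ s) (Ioi 0) := by
      have c1 : ContinuousOn (kf τ s) (Ioi 0) := fun r hr =>
        (hA r hr).2.2.1.continuousAt.continuousWithinAt
      have c2 : ContinuousOn (kf τ⁻¹ (1 - s)) (Ioi 0) := fun r hr =>
        (hB r hr).2.2.1.continuousAt.continuousWithinAt
      have c3 : Continuous phc := by
        unfold phc
        fun_prop
      have c4 : Continuous fun r : ℝ => phc (τ * r) :=
        c3.comp (continuous_const.mul Complex.continuous_ofReal)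
      have c5 : Continuous fun r : ℝ => phc (τ⁻¹ * r) :=
        c3.comp (continuous_const.mul Complex.continuous_ofReal)
      have c6 : ContinuousOn (fun r : ℝ => (r : ℂ)) (Ioi 0) :=
        Complex.continuous_ofReal.continuousOn
      have c7 : ∀ r ∈ Ioi (0 : ℝ), (r : ℂ) ≠ 0 := fun r hr => by
        exact_mod_cast (ne_of_gt hr)
      unfold Dk
      exact ((((continuousOn_const.mul c1).add
        (c4.continuousOn.mul continuousOn_const)).neg).div c6 c7).add
        ((((continuousOn_const.mul c2).add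
        (c5.continuousOn.mul continuousOn_const)).neg).div c6 c7)
    refine h1.congr fun r hr => ?_
    exact (hder r hr).deriv
  · intro r hr
    refine ⟨(hder r hr).differentiableAt, ?_, ?_⟩
    · rw [hsum r hr]
      obtain ⟨-, a1, -, -⟩ := hA r hr
      obtain ⟨-, b1, -, -⟩ := hB r hr
      rw [hTk, hexp] at a1 b1
      have x1 : 0 < r ^ (-s.re) := Real.rpow_pos_of_pos hr _
      have x2 : 0 < r ^ (s.re - 1) := Real.rpow_pos_of_pos hr _
      set E := Real.exp (-(3 / 4 * r / (1 + |s.im|))) with hE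
      have hE0 : 0 < E := Real.exp_pos _
      set G := Real.exp (-(π * |s.im| / 2)) with hG
      have hG0 : 0 < G := Real.exp_pos _
      have a2 : ‖kf τ s r‖ ≤ C * (4 / 3) ^ k * (1 + |s.im|) ^ k * (3 * G) * r ^ (-s.re) * E := by
        refine a1.trans ?_
        refine mul_le_mul_of_nonneg_right (mul_le_mul_of_nonneg_right
          (mul_le_mul_of_nonneg_left hp1 (by positivity)) x1.le) hE0.le
      have b2 : ‖kf τ⁻¹ (1 - s) r‖ ≤
          C * (4 / 3) ^ k * (1 + |s.im|) ^ k * (3 * G) * r ^ (s.re - 1) * E := by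
        refine b1.trans ?_
        refine mul_le_mul_of_nonneg_right (mul_le_mul_of_nonneg_right
          (mul_le_mul_of_nonneg_left hp2 (by positivity)) x2.le) hE0.le
      calc ‖kf τ s r + kf τ⁻¹ (1 - s) r‖ ≤ ‖kf τ s r‖ + ‖kf τ⁻¹ (1 - s) r‖ := norm_add_le _ _
        _ ≤ C * (4 / 3) ^ k * (1 + |s.im|) ^ k * (3 * G) * r ^ (-s.re) * E +
            C * (4 / 3) ^ k * (1 + |s.im|) ^ k * (3 * G) * r ^ (s.re - 1) * E := add_le_add a2 b2
        _ = 3 * (C * (4 / 3) ^ k) * (1 + |s.im|) ^ k * G * (r ^ (-s.re) + r ^ (s.re - 1)) * E * 1 := by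
            ring
        _ ≤ 3 * (C * (4 / 3) ^ k) * (1 + |s.im|) ^ k * G * (r ^ (-s.re) + r ^ (s.re - 1)) * E *
            (2 * (1 + |s.im|)) := mul_le_mul_of_nonneg_left (by linarith) (by positivity)
        _ = _ := by ring
    · rw [(hder r hr).deriv]
      obtain ⟨-, a1, -, a3⟩ := hA r hr
      obtain ⟨-, b1, -, b3⟩ := hB r hr
      rw [hexp] at a1 b1 a3 b3
      set E := Real.exp (-(3 / 4 * r / (1 + |s.im|))) with hE
      have hE0 : 0 < E := Real.exp_pos _
      set G := Real.exp (-(π * |s.im| / 2)) with hG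
      have hG0 : 0 < G := Real.exp_pos _
      have hns : ‖s‖ ≤ 1 + |s.im| := by
        refine (Complex.norm_le_abs_re_add_abs_im s).trans ?_
        have : |s.re| ≤ 1 := by
          rw [abs_le]
          constructor <;> linarith [hs'.1, hs'.2]
        linarith
      have hns2 : ‖1 - s‖ ≤ 1 + |s.im| := by
        refine (Complex.norm_le_abs_re_add_abs_im (1 - s)).trans ?_
        have h1 : |(1 - s).re| ≤ 1 := by
          rw [Complex.sub_re, Complex.one_re, abs_le]
          constructor <;> linarith [hs'.1, hs'.2]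
        have h2 : |(1 - s).im| = |s.im| := by
          rw [Complex.sub_im, Complex.one_im, zero_sub, abs_neg]
        linarith
      have g1 := dk_le s (phc (τ * r)) (τ ^ s) (C * T ^ k) (C * T ^ k) G E r (-s.re) (1 + |s.im|)
        (kf τ s r) hr hT hns (by positivity) hE0.le a1 a3 hp1 rfl
      have g2 := dk_le (1 - s) (phc (τ⁻¹ * r)) (τ⁻¹ ^ (1 - s)) (C * T ^ k) (C * T ^ k) G E r
        (s.re - 1) (1 + |s.im|) (kf τ⁻¹ (1 - s) r) hr hT hns2 (by positivity) hE0.le b1 b3
        hp2 rfl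
      have e3 : s.re - 1 - 1 = s.re - 2 := by ring
      rw [e3] at g2
      unfold Dk
      refine (norm_add_le _ _).trans ((add_le_add g1 g2).trans (le_of_eq ?_))
      rw [hTk]
      ring

end Pool.Agent.H73.FM
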