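import Pool.Agent.H89.FM.Targets2

/-! Fourth moment of class group `L`-functions, row KCB: the bound of the kernel. -/

set_option autoImplicit false

open MeasureTheory Set Filter
open scoped Real Matrix MatrixGroups

namespace Pool.Agent.H73.FM

open Pool.Agent.H31.CN Pool.Agent.H89.FM

theorem ki_meas (τ s r : ℂ) : Measurable (Ki τ s r) := by
  unfold Ki phc
  fun_prop

/-- the angle of the rotation -/
noncomputable def tht (t : ℝ) : ℝ := (if 0 ≤ t then 1 else -1) * (π / 2 - 1 / (1 + |t|))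

theorem tu_eq (t : ℝ) : tu t = Complex.exp ((tht t : ℂ) * Complex.I) := rfl

theorem tu_inv (t : ℝ) : (tu t)⁻¹ = Complex.exp (((-tht t : ℝ) : ℂ) * Complex.I) := by
  rw [tu_eq, ← Complex.exp_neg]
  congr 1
  push_cast
  ring

theorem one_le_T (t : ℝ) : 1 ≤ 1 + |t| := by have := abs_nonneg t; linarith

theorem tht_abs (t : ℝ) : |tht t| < π / 2 := by
  have hT := one_le_T t
  have h1 : 0 < 1 / (1 + |t|) := by positivity
  have h2 : 1 / (1 + |t|) ≤ 1 := by
    rw [div_le_one (by linarith)]; exact hT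
  have hp := Real.pi_gt_three
  unfold tht
  split_ifs with h
  · rw [one_mul, abs_of_pos (by linarith)]
    linarith
  · rw [neg_one_mul, abs_neg, abs_of_pos (by linarith)]
    linarith

theorem tht_mul (t : ℝ) : π / 2 * |t| - 1 ≤ tht t * t := by
  have hT := one_le_T t
  have h1 : |t| / (1 + |t|) ≤ 1 := by
    rw [div_le_one (by linarith)]; linarith
  have h2 : tht t * t = (π / 2 - 1 / (1 + |t|)) * |t| := by
    unfold tht
    split_ifs with h
    · rw [abs_of_nonneg h]; ring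
    · rw [abs_of_neg (not_le.1 h)]; ring
  rw [h2]
  have h3 : (π / 2 - 1 / (1 + |t|)) * |t| = π / 2 * |t| - |t| / (1 + |t|) := by ring
  rw [h3]
  linarith

theorem cos_tht (t : ℝ) : 3 / 4 / (1 + |t|) ≤ Real.cos (tht t) := by
  have hT := one_le_T t
  have h0 : 0 < 1 / (1 + |t|) := by positivity
  have h1 : 1 / (1 + |t|) ≤ 1 := by
    rw [div_le_one (by linarith)]; exact hT
  have h2 : Real.cos (tht t) = Real.sin (1 / (1 + |t|)) := by
    unfold tht
    split_ifs with h
    · rw [one_mul, Real.cos_pi_div_two_sub]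
    · rw [neg_one_mul, Real.cos_neg, Real.cos_pi_div_two_sub]
  rw [h2]
  have h3 := Real.sin_gt_sub_cube h0
  have h4 : (1 / (1 + |t|)) ^ 3 ≤ 1 / (1 + |t|) := by
    calc (1 / (1 + |t|)) ^ 3 ≤ (1 / (1 + |t|)) ^ 1 :=
          pow_le_pow_of_le_one h0.le h1 (by norm_num)
      _ = _ := pow_one _
  have h5 : 3 / 4 / (1 + |t|) = 3 / 4 * (1 / (1 + |t|)) := by ring
  rw [h5]
  linarith

/-- the real part of the rotated argument -/
theorem re_rot (t θ : ℝ) (r : ℂ) (hθ : θ = tht t ∨ θ = -tht t) (hr : 0 < r.re)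
    (hi : 10 * (1 + |t|) * |r.im| ≤ r.re) :
    65 / 100 * r.re / (1 + |t|) ≤ (Complex.exp ((θ : ℂ) * Complex.I) * r).re := by
  have hT := one_le_T t
  have hc : Real.cos θ = Real.cos (tht t) := by
    rcases hθ with rfl | rfl
    · rfl
    · rw [Real.cos_neg]
  have h1 : (Complex.exp ((θ : ℂ) * Complex.I) * r).re = Real.cos θ * r.re - Real.sin θ * r.im := by
    rw [Complex.mul_re, Complex.exp_ofReal_mul_I_re, Complex.exp_ofReal_mul_I_im]
  rw [h1, hc]
  have h2 := mul_le_mul_of_nonneg_right (cos_tht t) hr.le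
  have h3 : Real.sin θ * r.im ≤ |r.im| := by
    calc Real.sin θ * r.im ≤ |Real.sin θ * r.im| := le_abs_self _
      _ = |Real.sin θ| * |r.im| := abs_mul _ _
      _ ≤ 1 * |r.im| := mul_le_mul_of_nonneg_right (Real.abs_sin_le_one θ) (abs_nonneg _)
      _ = _ := one_mul _
  have h4 : |r.im| ≤ r.re / (10 * (1 + |t|)) := by
    rw [le_div_iff₀ (by positivity)]
    linarith
  have h5 : 65 / 100 * r.re / (1 + |t|) =
      3 / 4 / (1 + |t|) * r.re - r.re / (10 * (1 + |t|)) := by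
    field_simp
    ring
  rw [h5]
  linarith

/-- the bound of the test function -/
theorem phc_le (w : ℂ) : ‖phc w‖ ≤ (4 * π ^ 2 * ‖w‖ ^ 2 + 4 * π * ‖w‖) *
    Real.exp (-(2 * π * w.re)) := by
  unfold phc
  rw [norm_mul, Complex.norm_exp]
  have h1 : (-(2 * (π : ℂ) * w)).re = -(2 * π * w.re) := by
    simp
  rw [h1]
  refine mul_le_mul_of_nonneg_right ?_ (Real.exp_pos _).le
  refine (norm_sub_le _ _).trans ?_
  have hp := Real.pi_pos
  have h2 : ‖(4 * (π : ℂ) ^ 2 * w ^ 2)‖ = 4 * π ^ 2 * ‖w‖ ^ 2 := by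
    simp [abs_of_pos hp]
  have h3 : ‖(4 * (π : ℂ) * w)‖ = 4 * π * ‖w‖ := by
    simp [abs_of_pos hp]
  rw [h2, h3]

theorem norm_le_re (t : ℝ) (r : ℂ) (hr : 0 < r.re) (hi : 10 * (1 + |t|) * |r.im| ≤ r.re) :
    ‖r‖ ≤ 11 / 10 * r.re := by
  have hT := one_le_T t
  have h1 := Complex.norm_le_abs_re_add_abs_im r
  rw [abs_of_pos hr] at h1
  have h2 : 10 * |r.im| ≤ 10 * (1 + |t|) * |r.im| := by
    have := abs_nonneg r.im
    nlinarith
  linarith

/-- one of the two terms -/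
theorem term_le (t θ : ℝ) (r w : ℂ) (κ u : ℝ) (hθ : θ = tht t ∨ θ = -tht t) (hr : 0 < r.re)
    (hi : 10 * (1 + |t|) * |r.im| ≤ r.re) (hu : 1 < u) (hw : w.re ≤ 1 / 2 + κ)
    (hwi : θ * w.im = tht t * t) :
    ‖phc (Complex.exp ((θ : ℂ) * Complex.I) * u * r) *
      (Complex.exp ((θ : ℂ) * Complex.I) * u) ^ w‖ ≤
      50 * (u * r.re) * (1 + u * r.re) * Real.exp (-(4 * (u * r.re) / (1 + |t|))) *
        (3 * Real.exp (-(π / 2 * |t|)) * u ^ (1 / 2 + κ)) := by
  have hT := one_le_T t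
  have hu0 : 0 < u := by linarith
  have hz : 0 < u * r.re := mul_pos hu0 hr
  rw [norm_mul]
  refine mul_le_mul ?_ ?_ (norm_nonneg _) (by positivity)
  · refine (phc_le _).trans ?_
    have h1 : ‖Complex.exp ((θ : ℂ) * Complex.I) * u * r‖ ≤ 11 / 10 * (u * r.re) := by
      rw [norm_mul, norm_mul, Complex.norm_exp_ofReal_mul_I, one_mul, Complex.norm_real,
        Real.norm_of_nonneg hu0.le]
      have := mul_le_mul_of_nonneg_left (norm_le_re t r hr hi) hu0.le
      linarith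
    have h2 : (Complex.exp ((θ : ℂ) * Complex.I) * u * r).re =
        u * (Complex.exp ((θ : ℂ) * Complex.I) * r).re := by
      have : Complex.exp ((θ : ℂ) * Complex.I) * u * r =
          (u : ℂ) * (Complex.exp ((θ : ℂ) * Complex.I) * r) := by ring
      rw [this, Complex.re_ofReal_mul]
    have h3 := re_rot t θ r hθ hr hi
    have hp3 := Real.pi_gt_d2
    have hp4 := Real.pi_lt_d2
    refine mul_le_mul ?_ ?_ (Real.exp_pos _).le (by positivity)
    · have h4 : ‖Complex.exp ((θ : ℂ) * Complex.I) * u * r‖ ^ 2 ≤ (11 / 10 * (u * r.re)) ^ 2 :=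
        pow_le_pow_left₀ (norm_nonneg _) h1 2
      have h5 : π ^ 2 ≤ 3.15 ^ 2 := pow_le_pow_left₀ Real.pi_pos.le hp4.le 2
      have h6 : 4 * π ^ 2 * ‖Complex.exp ((θ : ℂ) * Complex.I) * u * r‖ ^ 2 ≤
          4 * 3.15 ^ 2 * (11 / 10 * (u * r.re)) ^ 2 :=
        mul_le_mul (by linarith) h4 (by positivity) (by norm_num)
      have h7 : 4 * π * ‖Complex.exp ((θ : ℂ) * Complex.I) * u * r‖ ≤
          4 * 3.15 * (11 / 10 * (u * r.re)) :=
        mul_le_mul (by linarith) h1 (norm_nonneg _) (by norm_num)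
      have h8 : 0 ≤ (u * r.re) ^ 2 := sq_nonneg _
      nlinarith
    · rw [h2]
      apply Real.exp_le_exp.2
      have h4 : u * (65 / 100 * r.re / (1 + |t|)) ≤
          u * (Complex.exp ((θ : ℂ) * Complex.I) * r).re :=
        mul_le_mul_of_nonneg_left h3 hu0.le
      have h5 : u * (65 / 100 * r.re / (1 + |t|)) = 65 / 100 * ((u * r.re) / (1 + |t|)) := by ring
      rw [h5] at h4
      have h6 : 4 * (u * r.re) / (1 + |t|) = 4 * ((u * r.re) / (1 + |t|)) := by ring
      rw [h6]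
      have h7 : 0 ≤ (u * r.re) / (1 + |t|) := by positivity
      have h8 : 0 ≤ u * (Complex.exp ((θ : ℂ) * Complex.I) * r).re := by linarith
      nlinarith
  · have habs := tht_abs t
    have hθa : |θ| < π / 2 := by
      rcases hθ with rfl | rfl
      · exact habs
      · rw [abs_neg]; exact habs
    have hpi := Real.pi_pos
    have harg : (Complex.exp ((θ : ℂ) * Complex.I) * u).arg = θ := by
      have h1 : Complex.exp ((θ : ℂ) * Complex.I) * u =
          (u : ℂ) * (Complex.cos θ + Complex.sin θ * Complex.I) := by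
        rw [Complex.exp_mul_I]; ring
      rw [h1]
      refine Complex.arg_mul_cos_add_sin_mul_I hu0 ⟨?_, ?_⟩
      · have := (abs_lt.1 hθa).1; linarith
      · have := (abs_lt.1 hθa).2; linarith
    have hne : Complex.exp ((θ : ℂ) * Complex.I) * u ≠ 0 :=
      mul_ne_zero (Complex.exp_ne_zero _) (by exact_mod_cast hu0.ne')
    rw [Complex.norm_cpow_of_ne_zero hne, harg, hwi, norm_mul, Complex.norm_exp_ofReal_mul_I,
      one_mul, Complex.norm_real, Real.norm_of_nonneg hu0.le, div_eq_mul_inv, ← Real.exp_neg]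
    have h1 : u ^ w.re ≤ u ^ (1 / 2 + κ) := Real.rpow_le_rpow_of_exponent_le hu.le hw
    have h2 : Real.exp (-(tht t * t)) ≤ 3 * Real.exp (-(π / 2 * |t|)) := by
      have h3 := tht_mul t
      calc Real.exp (-(tht t * t)) ≤ Real.exp (1 + -(π / 2 * |t|)) :=
            Real.exp_le_exp.2 (by linarith)
        _ = Real.exp 1 * Real.exp (-(π / 2 * |t|)) := Real.exp_add _ _
        _ ≤ 3 * Real.exp (-(π / 2 * |t|)) := by
            refine mul_le_mul_of_nonneg_right ?_ (Real.exp_pos _).le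
            have := Real.exp_one_lt_d9
            linarith
    calc u ^ w.re * Real.exp (-(tht t * t)) ≤
          u ^ (1 / 2 + κ) * (3 * Real.exp (-(π / 2 * |t|))) :=
          mul_le_mul h1 h2 (Real.exp_pos _).le (Real.rpow_nonneg hu0.le _)
      _ = _ := by ring

/-- the elementary inequality -/
theorem elem (T a u κ : ℝ) (hT : 1 ≤ T) (ha : 0 < a) (hu : 1 < u) (hk : 0 ≤ κ)
    (hk' : κ ≤ 1 / 8) :
    50 * (u * a) * (1 + u * a) * Real.exp (-(4 * (u * a) / T)) * u ^ (1 / 2 + κ) / u ≤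
      100 * T ^ 2 * a ^ (-(1 / 2 + κ)) * Real.exp (-(a / T)) * (a * Real.exp (-(2 * a / T * u))) := by
  have hu0 : 0 < u := by linarith
  set z := u * a with hz
  have hz0 : 0 < z := mul_pos hu0 ha
  have hT0 : 0 < T := by linarith
  have h1 : u ^ (1 / 2 + κ) = z ^ (1 / 2 + κ) * a ^ (-(1 / 2 + κ)) := by
    rw [hz, Real.mul_rpow hu0.le ha.le, mul_assoc, ← Real.rpow_add ha]
    simp
  have h2 : z ^ (1 / 2 + κ) ≤ 1 + z := by
    calc z ^ (1 / 2 + κ) ≤ (1 + z) ^ (1 / 2 + κ) :=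
          Real.rpow_le_rpow hz0.le (by linarith) (by linarith)
      _ ≤ (1 + z) ^ (1 : ℝ) := Real.rpow_le_rpow_of_exponent_le (by linarith) (by linarith)
      _ = 1 + z := Real.rpow_one _
  have h3 : (1 + z) * (1 + z) ≤ 2 * T ^ 2 * Real.exp (z / T) := by
    have h4 : 1 + z ≤ T * (1 + z / T) := by
      have : T * (1 + z / T) = T + z := by field_simp
      rw [this]; linarith
    have h5 : 0 ≤ z / T := by positivity
    have h6 := Real.quadratic_le_exp_of_nonneg h5
    have h7 : (1 + z / T) ^ 2 ≤ 2 * Real.exp (z / T) := by nlinarith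
    calc (1 + z) * (1 + z) ≤ (T * (1 + z / T)) * (T * (1 + z / T)) :=
          mul_le_mul h4 h4 (by linarith) (by positivity)
      _ = T ^ 2 * (1 + z / T) ^ 2 := by ring
      _ ≤ T ^ 2 * (2 * Real.exp (z / T)) := mul_le_mul_of_nonneg_left h7 (by positivity)
      _ = _ := by ring
  have h8 : Real.exp (z / T) * Real.exp (-(4 * z / T)) ≤
      Real.exp (-(a / T)) * Real.exp (-(2 * a / T * u)) := by
    rw [← Real.exp_add, ← Real.exp_add]
    apply Real.exp_le_exp.2
    have e1 : z / T + -(4 * z / T) = -(3 * (z / T)) := by ring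
    have e2 : -(a / T) + -(2 * a / T * u) = -(a / T + 2 * (z / T)) := by
      rw [hz]; ring
    rw [e1, e2]
    have h9 : a / T ≤ z / T := by
      apply div_le_div_of_nonneg_right _ hT0.le
      rw [hz]; nlinarith
    linarith
  have hapos : 0 < a ^ (-(1 / 2 + κ)) := Real.rpow_pos_of_pos ha _
  have e3 : 50 * z * (1 + z) * Real.exp (-(4 * z / T)) * u ^ (1 / 2 + κ) / u =
      50 * a * a ^ (-(1 / 2 + κ)) * ((1 + z) * z ^ (1 / 2 + κ) * Real.exp (-(4 * z / T))) := by
    rw [h1, hz]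
    field_simp
  rw [e3]
  have h10 : (1 + z) * z ^ (1 / 2 + κ) * Real.exp (-(4 * z / T)) ≤
      2 * T ^ 2 * (Real.exp (-(a / T)) * Real.exp (-(2 * a / T * u))) := by
    calc (1 + z) * z ^ (1 / 2 + κ) * Real.exp (-(4 * z / T)) ≤
          (1 + z) * (1 + z) * Real.exp (-(4 * z / T)) := by
          refine mul_le_mul_of_nonneg_right ?_ (Real.exp_pos _).le
          exact mul_le_mul_of_nonneg_left h2 (by linarith)
      _ ≤ 2 * T ^ 2 * Real.exp (z / T) * Real.exp (-(4 * z / T)) :=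
          mul_le_mul_of_nonneg_right h3 (Real.exp_pos _).le
      _ = 2 * T ^ 2 * (Real.exp (z / T) * Real.exp (-(4 * z / T))) := by ring
      _ ≤ _ := mul_le_mul_of_nonneg_left h8 (by positivity)
  calc 50 * a * a ^ (-(1 / 2 + κ)) * ((1 + z) * z ^ (1 / 2 + κ) * Real.exp (-(4 * z / T))) ≤
        50 * a * a ^ (-(1 / 2 + κ)) *
          (2 * T ^ 2 * (Real.exp (-(a / T)) * Real.exp (-(2 * a / T * u)))) :=
        mul_le_mul_of_nonneg_left h10 (by positivity)
    _ = _ := by ring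

/-- the pointwise bound of the integrand -/
theorem ki_le (κ : ℝ) (s r : ℂ) (hk : 0 ≤ κ) (hk' : κ ≤ 1 / 8) (hs : |s.re - 1 / 2| ≤ κ)
    (hr : 0 < r.re) (hi : 10 * (1 + |s.im|) * |r.im| ≤ r.re) (u : ℝ) (hu : 1 < u) :
    ‖Ki (tu s.im) s r u‖ ≤ 600 * (1 + |s.im|) ^ 2 * Real.exp (-(π / 2 * |s.im|)) *
      r.re ^ (-(1 / 2 + κ)) * Real.exp (-(r.re / (1 + |s.im|))) *
        (r.re * Real.exp (-(2 * r.re / (1 + |s.im|) * u))) := by
  have hu0 : 0 < u := by linarith
  have hs' := abs_le.1 hs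
  unfold Ki
  rw [norm_div, Complex.norm_real, Real.norm_of_nonneg hu0.le]
  have h1 := term_le s.im (tht s.im) r s κ u (Or.inl rfl) hr hi hu (by linarith [hs'.2]) rfl
  have h2 := term_le s.im (-tht s.im) r (1 - s) κ u (Or.inr rfl) hr hi hu
    (by rw [Complex.sub_re, Complex.one_re]; linarith [hs'.1])
    (by rw [Complex.sub_im, Complex.one_im]; ring)
  rw [← tu_eq] at h1
  rw [← tu_inv] at h2
  have h3 := elem (1 + |s.im|) r.re u κ (one_le_T _) hr hu hk hk'
  have h4 : ‖phc (tu s.im * u * r) * (tu s.im * u) ^ s +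
      phc ((tu s.im)⁻¹ * u * r) * ((tu s.im)⁻¹ * u) ^ (1 - s)‖ / u ≤
      2 * (50 * (u * r.re) * (1 + u * r.re) * Real.exp (-(4 * (u * r.re) / (1 + |s.im|))) *
        (3 * Real.exp (-(π / 2 * |s.im|)) * u ^ (1 / 2 + κ))) / u := by
    refine div_le_div_of_nonneg_right ?_ hu0.le
    refine (norm_add_le _ _).trans ?_
    linarith
  refine h4.trans ?_
  have e1 : 2 * (50 * (u * r.re) * (1 + u * r.re) * Real.exp (-(4 * (u * r.re) / (1 + |s.im|))) *
        (3 * Real.exp (-(π / 2 * |s.im|)) * u ^ (1 / 2 + κ))) / u =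
      6 * Real.exp (-(π / 2 * |s.im|)) * (50 * (u * r.re) * (1 + u * r.re) *
        Real.exp (-(4 * (u * r.re) / (1 + |s.im|))) * u ^ (1 / 2 + κ) / u) := by ring
  rw [e1]
  calc 6 * Real.exp (-(π / 2 * |s.im|)) * (50 * (u * r.re) * (1 + u * r.re) *
        Real.exp (-(4 * (u * r.re) / (1 + |s.im|))) * u ^ (1 / 2 + κ) / u) ≤
      6 * Real.exp (-(π / 2 * |s.im|)) * (100 * (1 + |s.im|) ^ 2 * r.re ^ (-(1 / 2 + κ)) *
        Real.exp (-(r.re / (1 + |s.im|))) *
          (r.re * Real.exp (-(2 * r.re / (1 + |s.im|) * u)))) :=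
        mul_le_mul_of_nonneg_left h3 (by positivity)
    _ = _ := by ring

theorem pf_KCB : T_KCB := by
  refine ⟨300, 3, by norm_num, ?_⟩
  intro κ s r hk hk' hs hr hi
  have hT := one_le_T s.im
  have hT0 : 0 < 1 + |s.im| := by linarith
  set K : ℝ := 600 * (1 + |s.im|) ^ 2 * Real.exp (-(π / 2 * |s.im|)) *
      r.re ^ (-(1 / 2 + κ)) * Real.exp (-(r.re / (1 + |s.im|))) with hK
  have hK0 : 0 ≤ K := by
    have := Real.rpow_pos_of_pos hr (-(1 / 2 + κ))
    positivity
  have hb : 0 < 2 * r.re / (1 + |s.im|) := by positivity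
  have hint : IntegrableOn (fun u : ℝ => K * (r.re * Real.exp (-(2 * r.re / (1 + |s.im|) * u))))
      (Ioi 1) := by
    have h1 := integrableOn_exp_mul_Ioi (a := -(2 * r.re / (1 + |s.im|))) (by linarith) 1
    have h2 : (fun u : ℝ => K * (r.re * Real.exp (-(2 * r.re / (1 + |s.im|) * u)))) =
        fun u : ℝ => K * (r.re * Real.exp (-(2 * r.re / (1 + |s.im|)) * u)) := by
      funext u; rw [neg_mul]
    rw [h2]
    exact (h1.const_mul r.re).const_mul K
  have hle : ∀ᵐ u ∂(volume.restrict (Ioi (1 : ℝ))), ‖Ki (tu s.im) s r u‖ ≤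
      K * (r.re * Real.exp (-(2 * r.re / (1 + |s.im|) * u))) := by
    refine (ae_restrict_mem measurableSet_Ioi).mono fun u hu => ?_
    exact ki_le κ s r hk hk' hs hr hi u hu
  refine ⟨Integrable.mono' hint (ki_meas _ _ _).aestronglyMeasurable hle, ?_⟩
  unfold Kc
  refine (norm_integral_le_of_norm_le hint hle).trans ?_
  have h3 : ∫ u in Ioi (1 : ℝ), K * (r.re * Real.exp (-(2 * r.re / (1 + |s.im|) * u))) =
      K * (r.re * ((1 + |s.im|) / (2 * r.re) * Real.exp (-(2 * r.re / (1 + |s.im|))))) := by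
    rw [integral_const_mul, integral_const_mul]
    congr 2
    have h4 := integral_exp_mul_Ioi (a := -(2 * r.re / (1 + |s.im|))) (by linarith) 1
    have h5 : (fun u : ℝ => Real.exp (-(2 * r.re / (1 + |s.im|) * u))) =
        fun u : ℝ => Real.exp (-(2 * r.re / (1 + |s.im|)) * u) := by
      funext u; rw [neg_mul]
    rw [h5, h4, mul_one]
    field_simp
  rw [h3]
  have h6 : r.re * ((1 + |s.im|) / (2 * r.re) * Real.exp (-(2 * r.re / (1 + |s.im|)))) ≤
      (1 + |s.im|) / 2 := by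
    have h7 : Real.exp (-(2 * r.re / (1 + |s.im|))) ≤ 1 := Real.exp_le_one_iff.2 (by linarith)
    have h8 : r.re * ((1 + |s.im|) / (2 * r.re) * Real.exp (-(2 * r.re / (1 + |s.im|)))) =
        (1 + |s.im|) / 2 * Real.exp (-(2 * r.re / (1 + |s.im|))) := by
      field_simp
    rw [h8]
    calc (1 + |s.im|) / 2 * Real.exp (-(2 * r.re / (1 + |s.im|))) ≤ (1 + |s.im|) / 2 * 1 :=
          mul_le_mul_of_nonneg_left h7 (by positivity)
      _ = _ := mul_one _
  refine (mul_le_mul_of_nonneg_left h6 hK0).trans (le_of_eq ?_)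
  rw [hK]
  ring

end Pool.Agent.H73.FM
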