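import Pool.Agent.H73.FM.KCB

/-! Fourth moment of class group `L`-functions, row KCD: the kernel is holomorphic. -/

set_option autoImplicit false

open MeasureTheory Set Filter
open scoped Real Matrix MatrixGroups

namespace Pool.Agent.H73.FM

open Pool.Agent.H31.CN Pool.Agent.H89.FM

/-- the derivative of the test function -/
noncomputable def ph1 (w : ℂ) : ℂ :=
  (16 * π ^ 2 * w - 4 * π - 8 * π ^ 3 * w ^ 2) * Complex.exp (-(2 * π * w))

theorem phc_deriv (w : ℂ) : HasDerivAt phc (ph1 w) w := by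
  have h1 : HasDerivAt (fun w : ℂ => 4 * (π : ℂ) ^ 2 * w ^ 2 - 4 * π * w)
      (4 * (π : ℂ) ^ 2 * (2 * w) - 4 * π) w := by
    have h2 := ((hasDerivAt_pow 2 w).const_mul (4 * (π : ℂ) ^ 2)).sub
      ((hasDerivAt_id w).const_mul (4 * (π : ℂ)))
    refine h2.congr_deriv ?_
    simp
  have h3 : HasDerivAt (fun w : ℂ => Complex.exp (-(2 * π * w)))
      (Complex.exp (-(2 * π * w)) * (-(2 * π))) w := by
    have h4 : HasDerivAt (fun w : ℂ => -(2 * (π : ℂ) * w)) (-(2 * π)) w := by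
      refine (((hasDerivAt_id w).const_mul (2 * (π : ℂ))).neg).congr_deriv ?_
      simp
    exact h4.cexp
  refine (h1.mul h3).congr_deriv ?_
  unfold ph1
  ring

theorem ph1_le (w : ℂ) : ‖ph1 w‖ ≤ (16 * π ^ 2 * ‖w‖ + 4 * π + 8 * π ^ 3 * ‖w‖ ^ 2) *
    Real.exp (-(2 * π * w.re)) := by
  unfold ph1
  rw [norm_mul, Complex.norm_exp]
  have h1 : (-(2 * (π : ℂ) * w)).re = -(2 * π * w.re) := by
    simp
  rw [h1]
  refine mul_le_mul_of_nonneg_right ?_ (Real.exp_pos _).le
  have hp := Real.pi_pos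
  have h2 : ‖(16 * (π : ℂ) ^ 2 * w)‖ = 16 * π ^ 2 * ‖w‖ := by
    simp [abs_of_pos hp]
  have h3 : ‖(4 * (π : ℂ))‖ = 4 * π := by
    simp [abs_of_pos hp]
  have h4 : ‖(8 * (π : ℂ) ^ 3 * w ^ 2)‖ = 8 * π ^ 3 * ‖w‖ ^ 2 := by
    simp [abs_of_pos hp]
  calc ‖16 * (π : ℂ) ^ 2 * w - 4 * π - 8 * π ^ 3 * w ^ 2‖ ≤
        ‖16 * (π : ℂ) ^ 2 * w - 4 * π‖ + ‖8 * (π : ℂ) ^ 3 * w ^ 2‖ := norm_sub_le _ _
    _ ≤ ‖16 * (π : ℂ) ^ 2 * w‖ + ‖4 * (π : ℂ)‖ + ‖8 * (π : ℂ) ^ 3 * w ^ 2‖ :=
        add_le_add (norm_sub_le _ _) le_rfl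
    _ = _ := by rw [h2, h3, h4]

/-- the derivative of one term -/
theorem dterm (z w r : ℂ) (u : ℝ) : HasDerivAt (fun r => phc (z * u * r) * (z * u) ^ w)
    (ph1 (z * u * r) * (z * u) * (z * u) ^ w) r := by
  have h1 : HasDerivAt (fun r : ℂ => z * u * r) (z * u) r := by
    refine ((hasDerivAt_id r).const_mul (z * u)).congr_deriv ?_
    simp
  have h2 : HasDerivAt (fun r : ℂ => phc (z * u * r)) (ph1 (z * u * r) * (z * u)) r :=
    (phc_deriv (z * u * r)).comp r h1
  exact h2.mul_const _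

theorem dterm_le (z w r : ℂ) (u c R : ℝ) (hz : ‖z‖ = 1) (hu : 1 < u)
    (hcz : c < (z * r).re) (hR : ‖r‖ < R) (hR1 : 1 ≤ R) (hw : w.re ≤ 1) :
    ‖ph1 (z * u * r) * (z * u) * (z * u) ^ w‖ ≤
      (16 * π ^ 2 + 4 * π + 8 * π ^ 3) * R ^ 2 * Real.exp (π * |w.im|) *
        (u ^ 4 * Real.exp (-(2 * π * c * u))) := by
  have hu0 : 0 < u := by linarith
  have hp := Real.pi_pos
  have hzu : ‖z * u‖ = u := by
    rw [norm_mul, hz, one_mul, Complex.norm_real, Real.norm_of_nonneg hu0.le]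
  have hn : ‖z * u * r‖ ≤ u * R := by
    rw [norm_mul, hzu]
    exact mul_le_mul_of_nonneg_left hR.le hu0.le
  have huR : 1 ≤ u * R := by nlinarith
  have h1 : ‖ph1 (z * u * r)‖ ≤ (16 * π ^ 2 + 4 * π + 8 * π ^ 3) * (u * R) ^ 2 *
      Real.exp (-(2 * π * c * u)) := by
    refine (ph1_le _).trans ?_
    refine mul_le_mul ?_ ?_ (Real.exp_pos _).le (by positivity)
    · have h2 : ‖z * u * r‖ ≤ (u * R) ^ 2 := by nlinarith [norm_nonneg (z * u * r)]
      have h3 : ‖z * u * r‖ ^ 2 ≤ (u * R) ^ 2 := pow_le_pow_left₀ (norm_nonneg _) hn 2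
      have h4 : (1 : ℝ) ≤ (u * R) ^ 2 := by nlinarith
      have h5 : 16 * π ^ 2 * ‖z * u * r‖ ≤ 16 * π ^ 2 * (u * R) ^ 2 :=
        mul_le_mul_of_nonneg_left h2 (by positivity)
      have h6 : 8 * π ^ 3 * ‖z * u * r‖ ^ 2 ≤ 8 * π ^ 3 * (u * R) ^ 2 :=
        mul_le_mul_of_nonneg_left h3 (by positivity)
      have h7 : 4 * π ≤ 4 * π * (u * R) ^ 2 := le_mul_of_one_le_right (by positivity) h4
      linarith
    · apply Real.exp_le_exp.2
      have h2 : (z * u * r).re = u * (z * r).re := by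
        have : z * u * r = (u : ℂ) * (z * r) := by ring
        rw [this, Complex.re_ofReal_mul]
      rw [h2]
      have h3 : u * c ≤ u * (z * r).re := mul_le_mul_of_nonneg_left hcz.le hu0.le
      have h4 : 2 * π * (u * c) ≤ 2 * π * (u * (z * r).re) :=
        mul_le_mul_of_nonneg_left h3 (by positivity)
      have h5 : 2 * π * c * u = 2 * π * (u * c) := by ring
      rw [h5]
      linarith
  have h8 : ‖(z * u) ^ w‖ ≤ u * Real.exp (π * |w.im|) := by
    refine (Complex.norm_cpow_le _ _).trans ?_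
    rw [hzu, div_eq_mul_inv, ← Real.exp_neg]
    refine mul_le_mul ?_ ?_ (Real.exp_pos _).le hu0.le
    · calc u ^ w.re ≤ u ^ (1 : ℝ) := Real.rpow_le_rpow_of_exponent_le hu.le hw
        _ = u := Real.rpow_one _
    · apply Real.exp_le_exp.2
      calc -((z * u).arg * w.im) ≤ |(z * u).arg * w.im| := neg_le_abs _
        _ = |(z * u).arg| * |w.im| := abs_mul _ _
        _ ≤ π * |w.im| := mul_le_mul_of_nonneg_right (Complex.abs_arg_le_pi _) (abs_nonneg _)
  rw [norm_mul, norm_mul, hzu]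
  calc ‖ph1 (z * u * r)‖ * u * ‖(z * u) ^ w‖ ≤
        ((16 * π ^ 2 + 4 * π + 8 * π ^ 3) * (u * R) ^ 2 * Real.exp (-(2 * π * c * u))) * u *
          (u * Real.exp (π * |w.im|)) :=
        mul_le_mul (mul_le_mul_of_nonneg_right h1 hu0.le) h8 (norm_nonneg _) (by positivity)
    _ = _ := by ring

theorem cube_exp (b u : ℝ) (hb : 0 < b) (hu : 0 < u) :
    u ^ 3 * Real.exp (-(2 * b * u)) ≤ 6 / b ^ 3 * Real.exp (-(b * u)) := by
  have h1 := Real.pow_div_factorial_le_exp (b * u) (by positivity) 3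
  have h2 : ((Nat.factorial 3 : ℕ) : ℝ) = 6 := by norm_num [Nat.factorial]
  rw [h2, mul_pow] at h1
  have h3 : u ^ 3 ≤ 6 / b ^ 3 * Real.exp (b * u) := by
    have h4 : u ^ 3 = 6 / b ^ 3 * (b ^ 3 * u ^ 3 / 6) := by
      field_simp
    rw [h4]
    exact mul_le_mul_of_nonneg_left h1 (by positivity)
  calc u ^ 3 * Real.exp (-(2 * b * u)) ≤ 6 / b ^ 3 * Real.exp (b * u) * Real.exp (-(2 * b * u)) :=
        mul_le_mul_of_nonneg_right h3 (Real.exp_pos _).le
    _ = 6 / b ^ 3 * (Real.exp (b * u) * Real.exp (-(2 * b * u))) := by ring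
    _ = _ := by
        rw [← Real.exp_add]
        congr 2
        ring

/-- the derivative of the integrand -/
noncomputable def Kd (τ s r : ℂ) (u : ℝ) : ℂ :=
  (ph1 (τ * u * r) * (τ * u) * (τ * u) ^ s + ph1 (τ⁻¹ * u * r) * (τ⁻¹ * u) *
    (τ⁻¹ * u) ^ (1 - s)) / u

theorem kd_meas (τ s r : ℂ) : Measurable (Kd τ s r) := by
  unfold Kd ph1
  fun_prop

theorem pf_KCD (hKCB : T_KCB) : T_KCD := by
  obtain ⟨C, k, _, hK⟩ := hKCB
  intro s r hs hr hi
  have hT := one_le_T s.im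
  set c : ℝ := 65 / 200 * r.re / (1 + |s.im|) with hc
  have hc0 : 0 < c := by positivity
  set R : ℝ := ‖r‖ + 1 with hR
  have hR1 : 1 ≤ R := by have := norm_nonneg r; linarith
  have e1 := tu_eq s.im
  have e2 := tu_inv s.im
  have hn1 : ‖tu s.im‖ = 1 := by rw [e1, Complex.norm_exp_ofReal_mul_I]
  have hn2 : ‖(tu s.im)⁻¹‖ = 1 := by rw [norm_inv, hn1, inv_one]
  have hs' := abs_le.1 hs
  have hS : {r' : ℂ | c < (tu s.im * r').re ∧ c < ((tu s.im)⁻¹ * r').re ∧ ‖r'‖ < R} ∈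
      nhds r := by
    refine IsOpen.mem_nhds ?_ ?_
    · have k1 : Continuous fun r' : ℂ => (tu s.im * r').re :=
        Complex.continuous_re.comp (continuous_const.mul continuous_id)
      have k2 : Continuous fun r' : ℂ => ((tu s.im)⁻¹ * r').re :=
        Complex.continuous_re.comp (continuous_const.mul continuous_id)
      exact (isOpen_lt continuous_const k1).inter
        ((isOpen_lt continuous_const k2).inter (isOpen_lt continuous_norm continuous_const))
    · have h1 := re_rot s.im (tht s.im) r (Or.inl rfl) hr hi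
      have h2 := re_rot s.im (-tht s.im) r (Or.inr rfl) hr hi
      rw [← e1] at h1
      rw [← e2] at h2
      have h3 : c < 65 / 100 * r.re / (1 + |s.im|) := by
        rw [hc]
        apply div_lt_div_of_pos_right _ (by linarith)
        linarith
      exact ⟨by linarith, by linarith, by rw [hR]; linarith⟩
  set K : ℝ := (16 * π ^ 2 + 4 * π + 8 * π ^ 3) * R ^ 2 * Real.exp (π * |s.im|) with hKd
  have hp := Real.pi_pos
  have hK0 : 0 ≤ K := by positivity
  have hdom : ∀ u : ℝ, 1 < u → ∀ r' ∈ {r' : ℂ | c < (tu s.im * r').re ∧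
      c < ((tu s.im)⁻¹ * r').re ∧ ‖r'‖ < R}, ‖Kd (tu s.im) s r' u‖ ≤
      2 * K * (6 / (π * c) ^ 3) * Real.exp (-(π * c * u)) := by
    rintro u hu r' ⟨h1, h2, h3⟩
    have hu0 : 0 < u := by linarith
    unfold Kd
    rw [norm_div, Complex.norm_real, Real.norm_of_nonneg hu0.le]
    have g1 := dterm_le (tu s.im) s r' u c R hn1 hu h1 h3 hR1 (by linarith [hs'.2])
    have g2 := dterm_le (tu s.im)⁻¹ (1 - s) r' u c R hn2 hu h2 h3 hR1
      (by rw [Complex.sub_re, Complex.one_re]; linarith [hs'.1])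
    have e3 : |(1 - s).im| = |s.im| := by
      rw [Complex.sub_im, Complex.one_im, zero_sub, abs_neg]
    rw [e3, ← hKd] at g2
    rw [← hKd] at g1
    have g3 : ‖ph1 (tu s.im * u * r') * (tu s.im * u) * (tu s.im * u) ^ s +
        ph1 ((tu s.im)⁻¹ * u * r') * ((tu s.im)⁻¹ * u) * ((tu s.im)⁻¹ * u) ^ (1 - s)‖ / u ≤
        (2 * (K * (u ^ 4 * Real.exp (-(2 * π * c * u))))) / u := by
      refine div_le_div_of_nonneg_right ?_ hu0.le
      refine (norm_add_le _ _).trans ?_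
      linarith
    refine g3.trans ?_
    have e4 : (2 * (K * (u ^ 4 * Real.exp (-(2 * π * c * u))))) / u =
        2 * K * (u ^ 3 * Real.exp (-(2 * (π * c) * u))) := by
      have : 2 * π * c * u = 2 * (π * c) * u := by ring
      rw [this]
      field_simp
    rw [e4]
    calc 2 * K * (u ^ 3 * Real.exp (-(2 * (π * c) * u))) ≤
          2 * K * (6 / (π * c) ^ 3 * Real.exp (-(π * c * u))) :=
          mul_le_mul_of_nonneg_left (cube_exp (π * c) u (by positivity) hu0) (by positivity)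
      _ = _ := by ring
  have hmain := hasDerivAt_integral_of_dominated_loc_of_deriv_le
    (μ := volume.restrict (Ioi (1 : ℝ))) (F := fun r u => Ki (tu s.im) s r u)
    (F' := fun r u => Kd (tu s.im) s r u) (x₀ := r)
    (bound := fun u => 2 * K * (6 / (π * c) ^ 3) * Real.exp (-(π * c * u))) hS
    (Eventually.of_forall fun r' => (ki_meas _ _ _).aestronglyMeasurable)
    (hK (1 / 8) s r (by norm_num) le_rfl hs hr hi).1
    (kd_meas _ _ _).aestronglyMeasurable
    ((ae_restrict_mem measurableSet_Ioi).mono fun u hu r' hr' => hdom u hu r' hr')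
    (by
      have h1 := integrableOn_exp_mul_Ioi (a := -(π * c)) (by
        have : 0 < π * c := by positivity
        linarith) 1
      have h2 : (fun u : ℝ => 2 * K * (6 / (π * c) ^ 3) * Real.exp (-(π * c * u))) =
          fun u : ℝ => 2 * K * (6 / (π * c) ^ 3) * Real.exp (-(π * c) * u) := by
        funext u; rw [neg_mul]
      rw [h2]
      exact h1.const_mul _)
    ((ae_restrict_mem measurableSet_Ioi).mono fun u hu r' hr' => by
      have h1 := ((dterm (tu s.im) s r' u).add (dterm (tu s.im)⁻¹ (1 - s) r' u)).div_const (u : ℂ)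
      exact h1)
  exact hmain.2.differentiableAt

end Pool.Agent.H73.FM
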